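import Mathlib
import Pool.Agent.helper70.LZ.SpecZ

/-!
# ZE0 (project LE, MP_baa4d7_al, block BOUND-Z): `p ^ e * EE p K η₀ η₀ ≤ 1`
-/

set_option autoImplicit false

namespace Pool.Agent.LE

open Pool.Agent.helper58.DC Pool.Agent.DI Pool.Agent.GR Pool.Agent.OB Pool.Agent.DR Pool.Agent.FI Pool.Agent.FI3 Pool.Agent.FI4

/-- The decomposition into a power of the `p`-element and a commuting `p`-regular element is unique. -/
theorem ZE0_inj {G : Type} [Group G] [Finite G] {p : ℕ} (hp : p.Prime) {z : G} {e : ℕ} (hz : orderOf z = p ^ e)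
    {v v' : G} (hv : PReg p v) (hv' : PReg p v') (hc : v * z = z * v) (hc' : v' * z = z * v') {k k' : ℕ}
    (hk : k < p ^ e) (hk' : k' < p ^ e) (h : z ^ k * v = z ^ k' * v') : k = k' ∧ v = v' := by
  have hC : Commute (z ^ k) v := (show Commute z v from hc.symm).pow_left k
  have hC' : Commute (z ^ k') v' := (show Commute z v' from hc'.symm).pow_left k'
  have h1 : (z ^ k * v) ^ (orderOf v * orderOf v') = z ^ (k * (orderOf v * orderOf v')) := by
    rw [hC.mul_pow, ← pow_mul, pow_mul v, pow_orderOf_eq_one, one_pow, mul_one]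
  have h2 : (z ^ k' * v') ^ (orderOf v * orderOf v') = z ^ (k' * (orderOf v * orderOf v')) := by
    rw [hC'.mul_pow, ← pow_mul, mul_comm (orderOf v) (orderOf v'), pow_mul v', pow_orderOf_eq_one, one_pow, mul_one]
  have h3 : z ^ (k * (orderOf v * orderOf v')) = z ^ (k' * (orderOf v * orderOf v')) := by
    rw [← h1, ← h2, h]
  rw [pow_eq_pow_iff_modEq, hz] at h3
  have hcop : (p ^ e).gcd (orderOf v * orderOf v') = 1 := by
    refine Nat.Coprime.pow_left e ?_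
    refine Nat.Coprime.mul_right ?_ ?_
    · exact (Nat.Prime.coprime_iff_not_dvd hp).mpr hv
    · exact (Nat.Prime.coprime_iff_not_dvd hp).mpr hv'
  have h4 : k ≡ k' [MOD p ^ e] := Nat.ModEq.cancel_right_of_coprime hcop h3
  have h5 : k = k' := Nat.ModEq.eq_of_lt_of_lt h4 hk hk'
  subst h5
  exact ⟨rfl, mul_left_cancel h⟩

theorem ZE0 (hQCE : QCE_stmt) (hB2 : B2_stmt) (hSTC : STC_stmt) : ZE0_stmt := by
  classical
  intro p hp G _ _ K z hzK hCen e hz η hη
  have : Fintype G := Fintype.ofFinite G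
  obtain ⟨-, hB⟩ := hB2 G K
  obtain ⟨⟨n, hn0, hn1, -⟩, -, -, -, hort⟩ := hB η hη
  have hcc : ∀ g : G, η g * η g⁻¹ = ((‖η g‖ ^ 2 : ℝ) : ℂ) := by
    intro g
    rw [hSTC G K η hη g, Complex.mul_conj']
    push_cast
    rfl
  -- the norm
  have hcard : (Nat.card K : ℝ) = ∑ g : G, ‖η g‖ ^ 2 := by
    have h := hort η hη
    rw [if_pos rfl, finsum_eq_sum_of_fintype, Finset.sum_congr rfl (fun g _ => hcc g), ← Complex.ofReal_sum] at h
    have h2 : ((∑ g : G, ‖η g‖ ^ 2 : ℝ) : ℂ) = ((Nat.card K : ℝ) : ℂ) := by rw [h]; push_cast; rfl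
    exact (Complex.ofReal_injective h2).symm
  -- the regular elements
  let R : Finset G := Finset.univ.filter (fun v => v ∈ K ∧ PReg p v)
  have hR : {v : G | v ∈ K ∧ PReg p v} = (↑R : Set G) := by
    ext v
    simp [R]
  have hRm : ∀ v, v ∈ R ↔ v ∈ K ∧ PReg p v := by
    intro v
    simp [R]
  have hEE : EE p K η η = ((∑ v ∈ R, ‖η v‖ ^ 2) / (Nat.card K : ℝ) : ℝ) := by
    unfold EE
    rw [hR, finsum_mem_coe_finset, Finset.sum_congr rfl (fun g _ => hcc g), ← Complex.ofReal_sum]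
    push_cast
    rfl
  -- absolute values
  have hnn : ‖η 1‖ = (n : ℝ) := by rw [hn1]; simp
  have hnp : (0 : ℝ) < n := by exact_mod_cast hn0
  have habs : ∀ k : ℕ, ∀ v : G, ‖η (z ^ k * v)‖ = ‖η v‖ := by
    intro k v
    have huK : z ^ k ∈ K := K.pow_mem hzK k
    have huC : Cen K (z ^ k) := by
      intro l hl
      exact ((show Commute z l from (hCen l hl).symm).pow_left k).eq.symm
    obtain ⟨h1, h2, -⟩ := hQCE G K (z ^ k) huK huC η hη
    have h3 : ‖η (z ^ k)‖ = (n : ℝ) := by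
      rw [Complex.mul_conj'] at h2
      have h4 : ((‖η (z ^ k)‖ ^ 2 : ℝ) : ℂ) = (((n : ℝ) ^ 2 : ℝ) : ℂ) := by
        push_cast
        rw [h2, hn1]
      have h5 : ‖η (z ^ k)‖ ^ 2 = (n : ℝ) ^ 2 := Complex.ofReal_injective h4
      exact (pow_left_inj₀ (norm_nonneg _) hnp.le two_ne_zero).mp h5
    have h6 := congrArg norm (h1 v)
    rw [norm_mul, norm_mul, hnn, h3] at h6
    have h7 : (n : ℝ) * ‖η (z ^ k * v)‖ = (n : ℝ) * ‖η v‖ := by rw [mul_comm]; exact h6
    exact mul_left_cancel₀ hnp.ne' h7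
  -- the map
  let F : ℕ × G → G := fun q => z ^ q.1 * q.2
  have hinj : Set.InjOn F (↑(Finset.range (p ^ e) ×ˢ R) : Set (ℕ × G)) := by
    rintro ⟨k, v⟩ h1 ⟨k', v'⟩ h2 h
    rw [Finset.mem_coe, Finset.mem_product, Finset.mem_range, hRm] at h1 h2
    obtain ⟨h3, h4⟩ := ZE0_inj hp hz h1.2.2 h2.2.2 (hCen v h1.2.1) (hCen v' h2.2.1) h1.1 h2.1 h
    exact Prod.ext h3 h4
  have hle : (p : ℝ) ^ e * ∑ v ∈ R, ‖η v‖ ^ 2 ≤ (Nat.card K : ℝ) := by
    rw [hcard]
    calc (p : ℝ) ^ e * ∑ v ∈ R, ‖η v‖ ^ 2 = ∑ q ∈ Finset.range (p ^ e) ×ˢ R, ‖η (F q)‖ ^ 2 := by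
          rw [Finset.sum_product]
          rw [Finset.sum_congr rfl (fun k _ => Finset.sum_congr rfl (fun v _ => by rw [show F (k, v) = z ^ k * v from rfl, habs k v]))]
          rw [Finset.sum_const, Finset.card_range, nsmul_eq_mul]
          push_cast
          rfl
      _ = ∑ x ∈ (Finset.range (p ^ e) ×ˢ R).image F, ‖η x‖ ^ 2 := (Finset.sum_image (f := fun x : G => ‖η x‖ ^ 2) hinj).symm
      _ ≤ ∑ x : G, ‖η x‖ ^ 2 := Finset.sum_le_univ_sum_of_nonneg (fun x => by positivity)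
  have hKpos : (0 : ℝ) < (Nat.card K : ℝ) := by exact_mod_cast Nat.card_pos
  refine ⟨(∑ v ∈ R, ‖η v‖ ^ 2) / (Nat.card K : ℝ), hEE, ?_, ?_⟩
  · exact div_nonneg (Finset.sum_nonneg (fun x _ => by positivity)) hKpos.le
  · rw [← mul_div_assoc, div_le_one hKpos]
    exact hle

end Pool.Agent.LE
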