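import Mathlib
import Pool.Agent.helper70.LZ.SpecZ

/-!
# Z2L (project LE, MP_baa4d7_al, block BOUND-Z): all groups, from BDZ, HEZ, NIL, DVZ

The proved rows `MNG_stmt` (`AllG.gMNG`) and `LOA_stmt` (`AllP4.pLOA`) are further hypotheses.
-/

set_option autoImplicit false

namespace Pool.Agent.LE

open Pool.Agent.helper58.DC Pool.Agent.DI Pool.Agent.GR Pool.Agent.OB Pool.Agent.DR Pool.Agent.FI Pool.Agent.FI3 Pool.Agent.FI4

/-- The commutator lemma. -/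
theorem Z2L_comm {G : Type} [Group G] [Finite G] {p : ℕ} (hp : p.Prime) (D R : Subgroup G) (hDp : IsPGroup p D)
    (hDc : ∀ a ∈ D, ∀ b ∈ D, a * b = b * a) (hRD : R ≤ D) (t : G) (ht : t ∈ nz D) (htR : t ∈ cz R) (k : ℕ) (hk : ¬ p ∣ k)
    (htk : t ^ k ∈ cz D) (w : G) (hw : w ∈ D) :
    w⁻¹ * t * w * t⁻¹ ∈ D ∧ ∀ j : ℕ, (w⁻¹ * t * w * t⁻¹) ^ j ∈ R → (w⁻¹ * t * w * t⁻¹) ^ j = 1 := by
  have hconj : ∀ d ∈ D, t * d * t⁻¹ ∈ D := fun d hd => (Subgroup.mem_normalizer_iff.1 ht d).1 hd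
  have hvD : w⁻¹ * t * w * t⁻¹ ∈ D := by
    have h1 : w⁻¹ * t * w * t⁻¹ = w⁻¹ * (t * w * t⁻¹) := by group
    rw [h1]
    exact D.mul_mem (D.inv_mem hw) (hconj w hw)
  refine ⟨hvD, fun j hj => ?_⟩
  -- the power of the commutator
  have hpow : ∀ j : ℕ, (w⁻¹ * t * w * t⁻¹) ^ j = (w ^ j)⁻¹ * (t * w ^ j * t⁻¹) := by
    intro j
    have h1 : w⁻¹ * t * w * t⁻¹ = w⁻¹ * (t * w * t⁻¹) := by group
    have h2 : Commute w⁻¹ (t * w * t⁻¹) := hDc _ (D.inv_mem hw) _ (hconj w hw)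
    rw [h1, h2.mul_pow, conj_pow, inv_pow]
  obtain ⟨r, hr⟩ : ∃ r : G, r = (w⁻¹ * t * w * t⁻¹) ^ j := ⟨_, rfl⟩
  obtain ⟨u, hu⟩ : ∃ u : G, u = w ^ j := ⟨_, rfl⟩
  have huD : u ∈ D := by
    rw [hu]
    exact D.pow_mem hw j
  rw [← hr] at hj ⊢
  have hrD : r ∈ D := hRD hj
  have e1 : t * u * t⁻¹ = u * r := by
    rw [hr, hpow j, ← hu]
    group
  have e2 : t * r * t⁻¹ = r := by
    rw [Subgroup.mem_centralizer_iff] at htR
    rw [← htR r hj]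
    group
  have e3 : ∀ i : ℕ, t ^ i * u * (t ^ i)⁻¹ = u * r ^ i := by
    intro i
    induction i with
    | zero => simp
    | succ i ih =>
      have e4 : t * r ^ i * t⁻¹ = r ^ i := by
        rw [← conj_pow, e2]
      calc t ^ (i + 1) * u * (t ^ (i + 1))⁻¹ = t * (t ^ i * u * (t ^ i)⁻¹) * t⁻¹ := by
            rw [pow_succ']
            group
        _ = t * (u * r ^ i) * t⁻¹ := by rw [ih]
        _ = (t * u * t⁻¹) * (t * r ^ i * t⁻¹) := by group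
        _ = u * r * r ^ i := by rw [e1, e4]
        _ = u * r ^ (i + 1) := by rw [pow_succ', mul_assoc]
  have e5 : u = u * r ^ k := by
    rw [← e3 k]
    rw [Subgroup.mem_centralizer_iff] at htk
    rw [← htk u huD]
    group
  have e6 : r ^ k = 1 := (mul_eq_left.1 e5.symm)
  obtain ⟨m, hm⟩ := hDp ⟨r, hrD⟩
  have hm' : r ^ p ^ m = 1 := congrArg Subtype.val hm
  have h7 : orderOf r ∣ k := orderOf_dvd_of_pow_eq_one e6
  have h8 : orderOf r ∣ p ^ m := orderOf_dvd_of_pow_eq_one hm'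
  have h9 : Nat.Coprime k (p ^ m) := Nat.Coprime.pow_right m ((Nat.Prime.coprime_iff_not_dvd hp).2 hk).symm
  have h10 : orderOf r = 1 := Nat.eq_one_of_dvd_coprimes h9 h7 h8
  exact orderOf_eq_one_iff.1 h10

theorem Z2L_idx {G : Type} [Group G] [Finite G] (M : Ideal (integralClosure ℤ ℂ)) (D : Subgroup G) (θ : G → ℂ) (t : G)
    (ht : t ∈ TT M D θ) : t ^ (cz D).relIndex (TT M D θ) ∈ cz D := by
  have hN : ((cz D).subgroupOf (TT M D θ)).Normal := by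
    constructor
    intro n hn g
    rw [Subgroup.mem_subgroupOf] at hn ⊢
    exact cz_conj (show (g : G) ∈ nz D from g.2.1) hn
  exact Subgroup.pow_index_mem ((cz D).subgroupOf (TT M D θ)) (⟨t, ht⟩ : TT M D θ)

/-- The divisibility by `p ^ c * |G|` under the commutator hypothesis, from DVZ. -/
theorem Z2L_dvh (hDVZ : DVZ_stmt) (hLOA : LOA_stmt) (p : ℕ) (M : Ideal (integralClosure ℤ ℂ)) (hM : Setup p M) (hp2 : p ≠ 2) (H : HP)
    (c : ℕ) (hc : 1 ≤ c) (hw : ∀ (G : Type) [Group G] [Finite G] (D T : Subgroup G), H G D T → HWE p c G D T) : DVH p M H (p ^ c) := by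
  intro G _ _ D x θ χ hR hH R hRo hRD hRP
  unfold RP at hRP
  push Not at hRP
  obtain ⟨t, ht, htR, htD⟩ := hRP
  have lo := hLOA p M hM G D x θ χ hR
  obtain ⟨w, hwD, hne⟩ := hw G D (TT M D θ) hH t ht htD
  obtain ⟨hvD, hvR⟩ := Z2L_comm hM.pr D R hR.dfa.pgrp hR.com hRD t ht.1 htR _ lo.bet (Z2L_idx M D θ t ht) w hwD
  obtain ⟨m, hm⟩ := hDVZ p M hM hp2 G D x θ χ hR c hc R hRo hRD _ hvD (fun h => hne (hvR _ h))
  refine ⟨m, ?_⟩
  rw [hm]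
  push_cast
  ring

theorem Z2L (hBDZ : BDZ_stmt) (hHEZ : HEZ_stmt) (hNIL : Pool.Agent.LE.NIL_stmt) (hDVZ : DVZ_stmt) (hMNG : MNG_stmt)
    (hLOA : LOA_stmt) : Z2L_stmt := by
  intro p M hM hp2 c hc
  have hHer : Her p (HAnd (HBE p c) (HWE p c)) := (hHEZ p hM.pr c).2.1
  refine hMNG p M hM _ hHer (p ^ c) ?_ ?_ (Z2L_dvh hDVZ hLOA p M hM hp2 _ c hc fun G _ _ D T hH => hH.2)
  · intro G _ _ D x θ χ hR _ R hRD hRn hRP
    exact hNIL p M hM hp2 G D x θ χ hR R hRD hRn hRP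
  · intro G _ _ D x θ χ hR hH
    exact hBDZ p M hM hp2 c hc G D x θ χ hR hH.1

end Pool.Agent.LE
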